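import Pool.Agent.H31.DP.Targets

/-!
[F2] Pairs: the correlation with an arbitrary function vanishes at almost all distances.
-/

set_option autoImplicit false

open Finset Filter Topology

namespace Pool.Agent.H88.DP

open Pool.Agent.H31.DP

theorem f2_scale {r : ℕ} (β : Fin r → ℤ) (δ : Fin r → ℕ) (hPV : StatementPV) (N : ℕ) (hN : 0 < N)
    (η e : ℝ) (hη : 0 < η) (he : 8 * e ^ 2 ≤ η ^ 3)
    (hS : ∀ θ : ℝ, ‖Sm β δ (2 * N) θ‖ ≤ e * ((2 * N : ℕ) : ℝ)) (F : ℕ → ℂ) (hF : ∀ n, ‖F n‖ ≤ 1) :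
    (((Finset.Icc 1 N).filter (fun t : ℕ => η * N <
          ‖∑ n ∈ Finset.Icc 1 N, F n * ((fm β δ (n + t) : ℝ) : ℂ)‖)).card : ℝ) ≤ η * N := by
  classical
  have hN' : (0 : ℝ) < N := by exact_mod_cast hN
  have h1 := hPV F (fun m => ((fm β δ m : ℝ) : ℂ)) N (e * ((2 * N : ℕ) : ℝ)) hF
    (fun θ => by simpa [Sm] using hS θ)
  set T := (Finset.Icc 1 N).filter (fun t : ℕ => η * N <
          ‖∑ n ∈ Finset.Icc 1 N, F n * ((fm β δ (n + t) : ℝ) : ℂ)‖) with hT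
  have h2 : (T.card : ℝ) * (η * N) ^ 2 ≤
      ∑ t ∈ Finset.Icc 1 N, ‖∑ n ∈ Finset.Icc 1 N, F n * ((fm β δ (n + t) : ℝ) : ℂ)‖ ^ 2 := by
    have h3 : ∑ t ∈ T, (η * N) ^ 2 ≤
        ∑ t ∈ T, ‖∑ n ∈ Finset.Icc 1 N, F n * ((fm β δ (n + t) : ℝ) : ℂ)‖ ^ 2 := by
      refine Finset.sum_le_sum (fun t ht => ?_)
      have h4 : η * N < ‖∑ n ∈ Finset.Icc 1 N, F n * ((fm β δ (n + t) : ℝ) : ℂ)‖ :=
        (Finset.mem_filter.mp ht).2
      have h5 : 0 ≤ η * N := by positivity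
      exact pow_le_pow_left₀ h5 h4.le 2
    rw [Finset.sum_const, nsmul_eq_mul] at h3
    refine h3.trans (Finset.sum_le_sum_of_subset_of_nonneg (Finset.filter_subset _ _) ?_)
    intro t _ _
    positivity
  have h6 : (T.card : ℝ) * (η * N) ^ 2 ≤ N * (e * ((2 * N : ℕ) : ℝ)) ^ 2 := h2.trans h1
  push_cast at h6
  have h7 : (T.card : ℝ) * (η * N) ^ 2 ≤ (η * N) * (η * N) ^ 2 := by
    refine h6.trans ?_
    have h8 : (N : ℝ) * (e * (2 * N)) ^ 2 = (8 * e ^ 2) * (N : ℝ) ^ 3 / 2 := by ring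
    rw [h8]
    have h9 : (8 * e ^ 2) * (N : ℝ) ^ 3 ≤ η ^ 3 * (N : ℝ) ^ 3 :=
      mul_le_mul_of_nonneg_right he (by positivity)
    have h10 : 0 ≤ η ^ 3 * (N : ℝ) ^ 3 := by positivity
    nlinarith [h9, h10]
  have h11 : (0 : ℝ) < (η * N) ^ 2 := by positivity
  exact le_of_mul_le_mul_right h7 h11

theorem pf_F2 (hPV : StatementPV) (hS2 : StatementS2) : StatementF2 := by
  classical
  intro r β δ η ρ hP hη hρ
  set e : ℝ := Real.sqrt (η ^ 3 / 8) with hedef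
  have he0 : 0 < e := Real.sqrt_pos.mpr (by positivity)
  have he2 : e ^ 2 = η ^ 3 / 8 := Real.sq_sqrt (by positivity)
  obtain ⟨K, hK⟩ := hS2 r β δ e (ρ / 2) hP he0 (by positivity)
  refine ⟨K, ?_⟩
  intro x y hx hxy
  have h1 := hK (2 * x) (2 * y) (by omega) (by nlinarith)
  have hlog : Real.log (((2 * y : ℕ) : ℝ) / ((2 * x : ℕ) : ℝ)) = Real.log ((y : ℝ) / x) := by
    congr 1
    push_cast
    rw [mul_div_mul_left _ _ (by norm_num : (2 : ℝ) ≠ 0)]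
  rw [hlog] at h1
  set B := (Finset.Icc x y).filter (fun N : ℕ => ∃ F : ℕ → ℂ, (∀ n, ‖F n‖ ≤ 1) ∧
        η * N < (((Finset.Icc 1 N).filter (fun t : ℕ => η * N <
          ‖∑ n ∈ Finset.Icc 1 N, F n * ((fm β δ (n + t) : ℝ) : ℂ)‖)).card : ℝ)) with hB
  set B' := (Finset.Icc (2 * x) (2 * y)).filter
    (fun N : ℕ => ∃ θ : ℝ, e * N < ‖Sm β δ N θ‖) with hB'
  set D : Finset ℕ := B.image (fun N : ℕ => 2 * N) with hD
  have hsub : D ⊆ B' := by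
    intro M hM
    obtain ⟨N, hN, rfl⟩ := Finset.mem_image.mp hM
    obtain ⟨hN1, F, hF, hN2⟩ := Finset.mem_filter.mp hN
    obtain ⟨hxN, hNy⟩ := Finset.mem_Icc.mp hN1
    refine Finset.mem_filter.mpr ⟨Finset.mem_Icc.mpr ⟨by omega, by omega⟩, ?_⟩
    by_contra hcon
    push Not at hcon
    have h2 := f2_scale β δ hPV N (by omega) η e hη (by rw [he2]; linarith) hcon F hF
    linarith
  have h3 : ∑ N ∈ B, (1 / (N : ℝ)) = 2 * ∑ M ∈ D, (1 / (M : ℝ)) := by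
    rw [hD, Finset.sum_image (fun a _ b _ hab => by simpa using hab), Finset.mul_sum]
    refine Finset.sum_congr rfl (fun N hN => ?_)
    push_cast
    by_cases hN0 : (N : ℝ) = 0
    · simp [hN0]
    · field_simp
  have h4 : ∑ M ∈ D, (1 / (M : ℝ)) ≤ ∑ M ∈ B', (1 / (M : ℝ)) := by
    refine Finset.sum_le_sum_of_subset_of_nonneg hsub ?_
    intro t _ _
    positivity
  rw [h3]
  linarith

end Pool.Agent.H88.DP
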